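import Pool.Agent.H629.CG.Stm

set_option autoImplicit false

namespace Pool.Agent.H282.CG.LIP

open MeasureTheory ProbabilityTheory Filter Topology Set
open scoped ENNReal NNReal
open Pool.Agent.H629.CG

theorem t_LIP : S_LIP := by
  classical
  intro ε₀ Ω _ P Z Ω' _ P' _ Z' hε₀ hP hZ' hL G hGc hGb
  have hpr : ∀ ε : ℝ, ∃ ν : ProbabilityMeasure ℝ, ε ∈ Ioo 0 ε₀ →
      (ν : Measure ℝ) = (P ε).map (Z ε) := by
    intro ε
    by_cases h : ε ∈ Ioo 0 ε₀
    · haveI := (hP ε h).1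
      exact ⟨⟨(P ε).map (Z ε), Measure.isProbabilityMeasure_map (hP ε h).2⟩, fun _ => rfl⟩
    · exact ⟨⟨Measure.dirac 0, inferInstance⟩, fun h' => absurd h' h⟩
  choose ν hν using hpr
  let ν' : ProbabilityMeasure ℝ := ⟨P'.map Z', Measure.isProbabilityMeasure_map hZ'⟩
  have hev : ∀ᶠ ε in 𝓝[>] (0 : ℝ), ε ∈ Ioo 0 ε₀ := Ioo_mem_nhdsGT hε₀
  have key : ∀ H : ℝ → ℝ, Continuous H → (∀ᶠ ε in 𝓝[>] (0 : ℝ),
      ∫ x, H x ∂(ν ε : Measure ℝ) = ∫ ω, H (Z ε ω) ∂(P ε)) := by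
    intro H hH
    filter_upwards [hev] with ε hε
    rw [hν ε hε, integral_map (hP ε hε).2 hH.aestronglyMeasurable]
  have key' : ∀ H : ℝ → ℝ, Continuous H →
      ∫ x, H x ∂(ν' : Measure ℝ) = ∫ ω, H (Z' ω) ∂P' := by
    intro H hH
    change ∫ x, H x ∂(P'.map Z') = _
    rw [integral_map hZ' hH.aestronglyMeasurable]
  have hconv : Tendsto ν (𝓝[>] (0 : ℝ)) (𝓝 ν') := by
    rw [tendsto_iff_forall_lipschitz_integral_tendsto]
    rintro f ⟨C, hC⟩ ⟨L, hfL⟩
    rw [key' f hfL.continuous]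
    refine (tendsto_congr' (key f hfL.continuous)).2 (hL f ⟨L, hfL⟩ ⟨C + |f 0|, fun x => ?_⟩)
    have h1 := hC x 0
    rw [Real.dist_eq] at h1
    have h2 : |f x| ≤ |f x - f 0| + |f 0| := by
      have := abs_add_le (f x - f 0) (f 0)
      simpa using this
    linarith
  rw [ProbabilityMeasure.tendsto_iff_forall_integral_tendsto] at hconv
  obtain ⟨B, hB⟩ := hGb
  have h := hconv (BoundedContinuousFunction.ofNormedAddCommGroup G hGc B
    (fun x => by rw [Real.norm_eq_abs]; exact hB x))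
  have h' : Tendsto (fun ε => ∫ x, G x ∂(ν ε : Measure ℝ)) (𝓝[>] (0 : ℝ))
      (𝓝 (∫ x, G x ∂(ν' : Measure ℝ))) := by
    simpa using h
  rw [key' G hGc] at h'
  exact (tendsto_congr' (key G hGc)).1 h'

theorem fat_core (ε₀ : ℝ) (Ω : ℝ → Type) [∀ ε, MeasurableSpace (Ω ε)]
    (P : ∀ ε, Measure (Ω ε)) (Z : ∀ ε, Ω ε → ℝ) (Ω' : Type) [MeasurableSpace Ω']
    (P' : Measure Ω') [IsProbabilityMeasure P'] (Z' : Ω' → ℝ) (hε₀ : 0 < ε₀)
    (hP : ∀ ε ∈ Ioo 0 ε₀, IsProbabilityMeasure (P ε) ∧ AEMeasurable (Z ε) (P ε))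
    (hZ' : AEMeasurable Z' P') (hZ0 : ∀ ε ω, 0 ≤ Z ε ω) (hZ0' : ∀ ω, 0 ≤ Z' ω)
    (hLaw : LawConv P Z P' Z') (p : ℝ) (C : ℝ≥0∞)
    (hC : ∀ ε ∈ Ioo 0 ε₀, ∫⁻ ω, ENNReal.ofReal (Z ε ω) ^ p ∂(P ε) ≤ C)
    (G : ℕ → ℝ → ℝ) (hGc : ∀ n, Continuous (G n)) (hGb : ∀ n, ∃ B : ℝ, ∀ x, |G n x| ≤ B)
    (hG0 : ∀ n x, 0 ≤ G n x)
    (hGle : ∀ n x, 0 ≤ x → ENNReal.ofReal (G n x) ≤ ENNReal.ofReal x ^ p)
    (hGt : ∀ x, 0 ≤ x →
      Tendsto (fun n => ENNReal.ofReal (G n x)) atTop (𝓝 (ENNReal.ofReal x ^ p))) :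
    ∫⁻ ω, ENNReal.ofReal (Z' ω) ^ p ∂P' ≤ C := by
  have hev : ∀ᶠ ε in 𝓝[>] (0 : ℝ), ε ∈ Ioo 0 ε₀ := Ioo_mem_nhdsGT hε₀
  have hint : ∀ n, ∫⁻ ω, ENNReal.ofReal (G n (Z' ω)) ∂P' ≤ C := by
    intro n
    obtain ⟨B, hB⟩ := hGb n
    have h1 : Integrable (fun ω => G n (Z' ω)) P' := by
      refine Integrable.of_bound (((hGc n).measurable.comp_aemeasurable hZ').aestronglyMeasurable)
        B (Eventually.of_forall fun ω => ?_)
      rw [Real.norm_eq_abs]; exact hB _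
    rw [← ofReal_integral_eq_lintegral_ofReal h1 (Eventually.of_forall fun ω => hG0 n _)]
    have h2 := (ENNReal.continuous_ofReal.tendsto _).comp (hLaw (G n) (hGc n) ⟨B, hB⟩)
    refine le_of_tendsto h2 ?_
    filter_upwards [hev] with ε hε
    haveI := (hP ε hε).1
    have h3 : Integrable (fun ω => G n (Z ε ω)) (P ε) := by
      refine Integrable.of_bound
        (((hGc n).measurable.comp_aemeasurable (hP ε hε).2).aestronglyMeasurable)
        B (Eventually.of_forall fun ω => ?_)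
      rw [Real.norm_eq_abs]; exact hB _
    change ENNReal.ofReal (∫ ω, G n (Z ε ω) ∂(P ε)) ≤ C
    rw [ofReal_integral_eq_lintegral_ofReal h3 (Eventually.of_forall fun ω => hG0 n _)]
    exact (lintegral_mono fun ω => hGle n _ (hZ0 ε ω)).trans (hC ε hε)
  calc ∫⁻ ω, ENNReal.ofReal (Z' ω) ^ p ∂P'
      = ∫⁻ ω, liminf (fun n => ENNReal.ofReal (G n (Z' ω))) atTop ∂P' := by
        refine lintegral_congr fun ω => ?_
        exact (hGt _ (hZ0' ω)).liminf_eq.symm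
    _ ≤ liminf (fun n => ∫⁻ ω, ENNReal.ofReal (G n (Z' ω)) ∂P') atTop :=
        lintegral_liminf_le' fun n =>
          ((hGc n).measurable.comp_aemeasurable hZ').ennreal_ofReal
    _ ≤ C := by
        refine (liminf_le_liminf (Eventually.of_forall hint)).trans ?_
        simp

theorem t_FAT : S_FAT := by
  intro ε₀ Ω _ P Z Ω' _ P' _ Z' hε₀ hP hZ' hZ0 hZ0' hLaw p C hC
  rcases lt_trichotomy p 0 with hp | hp | hp
  · -- p < 0
    have hnp : ∀ n : ℕ, (0 : ℝ) < 1 / ((n : ℝ) + 1) := fun n => by positivity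
    refine fat_core ε₀ Ω P Z Ω' P' Z' hε₀ hP hZ' hZ0 hZ0' hLaw p C hC
      (fun n x => (max |x| (1 / ((n : ℝ) + 1))) ^ p) ?_ ?_ ?_ ?_ ?_
    · intro n
      refine Continuous.rpow_const (by fun_prop) fun x => Or.inl ?_
      exact ne_of_gt (lt_of_lt_of_le (hnp n) (le_max_right _ _))
    · intro n
      refine ⟨(1 / ((n : ℝ) + 1)) ^ p, fun x => ?_⟩
      have h0 : 0 < max |x| (1 / ((n : ℝ) + 1)) := lt_of_lt_of_le (hnp n) (le_max_right _ _)
      rw [abs_of_nonneg (Real.rpow_nonneg h0.le _)]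
      exact Real.rpow_le_rpow_of_nonpos (hnp n) (le_max_right _ _) hp.le
    · intro n x
      exact Real.rpow_nonneg (le_trans (abs_nonneg x) (le_max_left _ _)) _
    · intro n x hx
      rcases hx.eq_or_lt with h0 | h0
      · rw [← h0, ENNReal.ofReal_zero, ENNReal.zero_rpow_of_neg hp]
        exact le_top
      · rw [ENNReal.ofReal_rpow_of_pos h0]
        refine ENNReal.ofReal_le_ofReal (Real.rpow_le_rpow_of_nonpos h0 ?_ hp.le)
        exact (le_abs_self x).trans (le_max_left _ _)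
    · intro x hx
      rcases hx.eq_or_lt with h0 | h0
      · rw [← h0, ENNReal.ofReal_zero, ENNReal.zero_rpow_of_neg hp]
        have h1 : ∀ n : ℕ, (max |(0 : ℝ)| (1 / ((n : ℝ) + 1))) ^ p = ((n : ℝ) + 1) ^ (-p) := by
          intro n
          rw [abs_zero, max_eq_right (hnp n).le, one_div, Real.inv_rpow (by positivity),
            Real.rpow_neg (by positivity)]
        simp_rw [h1]
        refine ENNReal.tendsto_ofReal_atTop.comp ?_
        refine (tendsto_rpow_atTop (by linarith : 0 < -p)).comp ?_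
        exact tendsto_atTop_add_const_right _ _ tendsto_natCast_atTop_atTop
      · refine tendsto_const_nhds.congr' ?_
        obtain ⟨N, hN⟩ := exists_nat_one_div_lt h0
        filter_upwards [eventually_ge_atTop N] with n hn
        have h1 : 1 / ((n : ℝ) + 1) ≤ x := by
          refine le_trans ?_ hN.le
          exact one_div_le_one_div_of_le (by positivity) (by
            have : (N : ℝ) ≤ n := by exact_mod_cast hn
            linarith)
        rw [abs_of_pos h0, max_eq_left h1, ENNReal.ofReal_rpow_of_pos h0]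
  · -- p = 0
    subst hp
    obtain ⟨ε, hε⟩ : (Ioo (0 : ℝ) ε₀).Nonempty := nonempty_Ioo.2 hε₀
    have h := hC ε hε
    haveI := (hP ε hε).1
    simpa using h
  · -- 0 < p
    have hnp : ∀ n : ℕ, (0 : ℝ) < (n : ℝ) + 1 := fun n => by positivity
    refine fat_core ε₀ Ω P Z Ω' P' Z' hε₀ hP hZ' hZ0 hZ0' hLaw p C hC
      (fun n x => (min |x| ((n : ℝ) + 1)) ^ p) ?_ ?_ ?_ ?_ ?_
    · intro n
      exact Continuous.rpow_const (by fun_prop) fun x => Or.inr hp.le
    · intro n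
      refine ⟨((n : ℝ) + 1) ^ p, fun x => ?_⟩
      have h0 : 0 ≤ min |x| ((n : ℝ) + 1) := le_min (abs_nonneg _) (hnp n).le
      rw [abs_of_nonneg (Real.rpow_nonneg h0 _)]
      exact Real.rpow_le_rpow h0 (min_le_right _ _) hp.le
    · intro n x
      exact Real.rpow_nonneg (le_min (abs_nonneg _) (hnp n).le) _
    · intro n x hx
      rw [ENNReal.ofReal_rpow_of_nonneg hx hp.le]
      refine ENNReal.ofReal_le_ofReal (Real.rpow_le_rpow (le_min (abs_nonneg _) (hnp n).le) ?_ hp.le)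
      rw [abs_of_nonneg hx]
      exact min_le_left _ _
    · intro x hx
      refine tendsto_const_nhds.congr' ?_
      obtain ⟨N, hN⟩ := exists_nat_ge x
      filter_upwards [eventually_ge_atTop N] with n hn
      have h1 : x ≤ (n : ℝ) + 1 := by
        have : (N : ℝ) ≤ n := by exact_mod_cast hn
        linarith
      rw [abs_of_nonneg hx, min_eq_left h1, ENNReal.ofReal_rpow_of_nonneg hx hp.le]

end Pool.Agent.H282.CG.LIP
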